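import Pool.Agent.Y996.OT.Stm

/-!
The value of `χ*_cr` for the ordered complete tripartite graph with parts of size `T`
(generalising the starting file, which has `T = 2`).
-/

set_option autoImplicit false

namespace Pool.Agent.Y996.OT

open Pool.Agent.H730R4

section

variable {T : ℕ}

/-- The parts of `KT T`. -/
def cT (T : ℕ) : Fin (3 * T) → Fin 3 := fun v =>
  ⟨(v : ℕ) / T, Nat.div_lt_of_lt_mul (lt_of_lt_of_eq v.isLt (mul_comm _ _))⟩

/-- the `j`-th vertex of the `i`-th part -/
def pt (T : ℕ) (i : Fin 3) (j : Fin T) : Fin (3 * T) := ⟨i * T + j, by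
  have h1 := i.isLt
  have h2 := j.isLt
  have h3 : (i : ℕ) * T ≤ 2 * T := Nat.mul_le_mul_right T (by omega)
  omega⟩

lemma pt_val (i : Fin 3) (j : Fin T) : (pt T i j : ℕ) = i * T + j := rfl

lemma cT_pt (i : Fin 3) (j : Fin T) : cT T (pt T i j) = i := by
  ext
  change ((i : ℕ) * T + j) / T = i
  have hT : 0 < T := j.pos
  rw [mul_comm, Nat.mul_add_div hT, Nat.div_eq_of_lt j.isLt, add_zero]

lemma cT_surj (hT : 1 ≤ T) : Function.Surjective (cT T) := fun i =>
  ⟨pt T i ⟨0, hT⟩, cT_pt i _⟩

lemma cT_adj (u v : Fin (3 * T)) : (KT T).Adj u v ↔ cT T u ≠ cT T v := by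
  change (u : ℕ) / T ≠ (v : ℕ) / T ↔ _
  rw [Ne, Ne, Fin.ext_iff]
  rfl

lemma cT_fibre (hT : 1 ≤ T) (i : Fin 3) :
    (Finset.univ.filter (fun a : Fin (3 * T) => cT T a = i)).card = T := by
  have h : Finset.univ.filter (fun a : Fin (3 * T) => cT T a = i) =
      (Finset.univ : Finset (Fin T)).image (pt T i) := by
    ext a
    rw [Finset.mem_filter, Finset.mem_image]
    constructor
    · rintro ⟨-, h⟩
      refine ⟨⟨(a : ℕ) % T, Nat.mod_lt _ hT⟩, Finset.mem_univ _, ?_⟩
      ext
      rw [pt_val, ← h]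
      change (a : ℕ) / T * T + (a : ℕ) % T = a
      exact Nat.div_add_mod' _ _
    · rintro ⟨j, -, rfl⟩
      exact ⟨Finset.mem_univ _, cT_pt i j⟩
  rw [h, Finset.card_image_of_injective, Finset.card_univ, Fintype.card_fin]
  intro j j' hjj
  have := congrArg Fin.val hjj
  rw [pt_val, pt_val] at this
  ext
  omega

lemma cT_count (hT : 1 ≤ T) (p : Fin 3 → Prop) [DecidablePred p] :
    (Finset.univ.filter (fun v : Fin (3 * T) => p (cT T v))).card =
      T * (Finset.univ.filter p).card := by
  rw [Finset.card_eq_sum_card_fiberwise (f := cT T)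
    (s := Finset.univ.filter (fun v : Fin (3 * T) => p (cT T v)))
    (t := Finset.univ.filter p) (fun v hv => by
      rw [Finset.mem_coe, Finset.mem_filter] at hv ⊢
      exact ⟨Finset.mem_univ _, hv.2⟩)]
  have : ∀ i ∈ Finset.univ.filter p,
      ((Finset.univ.filter (fun v : Fin (3 * T) => p (cT T v))).filter
        (fun v => cT T v = i)).card = T := by
    intro i hi
    refine Eq.trans ?_ (cT_fibre hT i)
    congr 1
    ext v
    simp only [Finset.mem_filter, Finset.mem_univ, true_and] at hi ⊢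
    constructor
    · exact fun h => h.2
    · intro h
      exact ⟨by rw [h]; exact hi, h⟩
  rw [Finset.sum_congr rfl this, Finset.sum_const, smul_eq_mul, mul_comm]

lemma chiCr_KT_le (hT : 1 ≤ T) : chiCr (KT T) ≤ 3 := by
  unfold chiCr
  rw [mp_chrom (cT_surj hT) cT_adj]
  have h1 : leastClass (KT T) 3 ≤ T := by
    refine (mp_least_le cT_adj 0).trans ?_
    have : {v | cT T v = 0} =
        ((Finset.univ.filter (fun a : Fin (3 * T) => cT T a = 0) : Finset (Fin (3 * T))) :
          Set (Fin (3 * T))) := by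
      ext v
      simp
    rw [this, Set.ncard_coe_finset, cT_fibre hT]
  have h2 : (leastClass (KT T) 3 : ℝ) ≤ T := by exact_mod_cast h1
  have h3 : (1 : ℝ) ≤ T := by exact_mod_cast hT
  rw [div_le_iff₀ (by push_cast; linarith)]
  push_cast
  linarith

lemma perm3 : ∀ (σ : Equiv.Perm (Fin 3)) (j : Fin 3),
    (Finset.univ.filter (fun i : Fin 3 => σ i < σ j)).card = (σ j : ℕ) ∧
    (Finset.univ.filter (fun i : Fin 3 => σ j < σ i)).card = 2 - (σ j : ℕ) := by
  decide

lemma KT_label (hT : 1 ≤ T) (σ : Equiv.Perm (Fin 3)) (φ : Equiv.Perm (Fin (3 * T)))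
    (h : ∀ u v, σ (cT T u) < σ (cT T v) → φ u < φ v) (u : Fin (3 * T)) :
    (φ u : ℕ) / T = σ (cT T u) := by
  obtain ⟨h1, h2⟩ := perm3 σ (cT T u)
  have h1' := cT_count hT (fun i => σ i < σ (cT T u))
  have h2' := cT_count hT (fun i => σ (cT T u) < σ i)
  rw [h1] at h1'
  rw [h2] at h2'
  have h3 : (Finset.univ.filter (fun v : Fin (3 * T) => σ (cT T v) < σ (cT T u))).card ≤ φ u := by
    have : ((Finset.univ.filter (fun v : Fin (3 * T) =>
        σ (cT T v) < σ (cT T u))).image φ) ⊆ Finset.Iio (φ u) := by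
      intro x hx
      rw [Finset.mem_image] at hx
      obtain ⟨v, hv, rfl⟩ := hx
      rw [Finset.mem_filter] at hv
      rw [Finset.mem_Iio]
      exact h v u hv.2
    have h4 := Finset.card_le_card this
    rw [Finset.card_image_of_injective _ φ.injective, Fin.card_Iio] at h4
    exact h4
  have h5 : (Finset.univ.filter (fun v : Fin (3 * T) => σ (cT T u) < σ (cT T v))).card ≤
      3 * T - 1 - φ u := by
    have : ((Finset.univ.filter (fun v : Fin (3 * T) =>
        σ (cT T u) < σ (cT T v))).image φ) ⊆ Finset.Ioi (φ u) := by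
      intro x hx
      rw [Finset.mem_image] at hx
      obtain ⟨v, hv, rfl⟩ := hx
      rw [Finset.mem_filter] at hv
      rw [Finset.mem_Ioi]
      exact h u v hv.2
    have h4 := Finset.card_le_card this
    rw [Finset.card_image_of_injective _ φ.injective, Fin.card_Ioi] at h4
    exact h4
  rw [h1'] at h3
  rw [h2'] at h5
  have h6 := (φ u).isLt
  have h7 := (σ (cT T u)).isLt
  generalize (φ u : ℕ) = x at h3 h5 h6 ⊢
  generalize ((σ (cT T u) : Fin 3) : ℕ) = k at h3 h5 h7 ⊢
  apply Nat.div_eq_of_lt_le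
  · rw [mul_comm]; exact h3
  · have : k = 0 ∨ k = 1 ∨ k = 2 := by omega
    rcases this with rfl | rfl | rfl
    · simp only [Nat.sub_zero] at h5
      omega
    · omega
    · omega

lemma KT_bottle (hT : 1 ≤ T) : IsBottlegraph (KT T) (KT T) := by
  refine ⟨by omega, 3, cT T, cT_surj hT, cT_adj, ?_⟩
  intro σ φ h
  refine ⟨1, by norm_num, {fun a => ⟨(a : ℕ), by omega⟩}, ⟨?_, ?_⟩, ?_⟩
  · rintro f rfl
    refine ⟨fun a b hab => hab, ?_⟩
    intro a b hab
    change (KT T).Adj (φ.symm (Fin.divNat _)) (φ.symm (Fin.divNat _))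
    have ea : ∀ a : Fin (3 * T), (Fin.divNat (⟨(a : ℕ), by omega⟩ : Fin (3 * T * 1))) = a := by
      intro a; ext; simp [Fin.divNat]
    rw [ea, ea, cT_adj]
    intro heq
    have h1 := KT_label hT σ φ h (φ.symm a)
    have h2 := KT_label hT σ φ h (φ.symm b)
    rw [Equiv.apply_symm_apply] at h1 h2
    rw [heq, ← h2] at h1
    exact hab h1
  · rintro f rfl g rfl hfg
    exact absurd rfl hfg
  · ext x
    simp only [covered, Set.mem_singleton_iff, Set.iUnion_iUnion_eq_left, Set.mem_range,
      Set.mem_univ, iff_true]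
    exact ⟨⟨x, by omega⟩, by ext; rfl⟩

lemma chain3 (hT : 1 ≤ T) (q : Fin (3 * T) → Fin 3) (hm : Monotone q)
    (hne : ∀ a b : Fin (3 * T), (a : ℕ) / T ≠ (b : ℕ) / T → q a ≠ q b) :
    ∀ a, q a = cT T a := by
  let p : Fin 3 → Fin (3 * T) := fun i => pt T i ⟨0, hT⟩
  have hp : ∀ i : Fin 3, (p i : ℕ) = i * T := fun i => by rw [pt_val]; rfl
  have hpd : ∀ i : Fin 3, (p i : ℕ) / T = i := fun i => by
    have := cT_pt i (⟨0, hT⟩ : Fin T)
    exact congrArg Fin.val this
  have p1 : (p 1 : ℕ) = T := by rw [hp]; simp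
  have p2 : (p 2 : ℕ) = 2 * T := by rw [hp]; simp
  have p0 : (p 0 : ℕ) = 0 := by rw [hp]; simp
  have h01 : q (p 0) < q (p 1) := lt_of_le_of_ne (hm (by rw [Fin.le_def]; omega))
    (hne _ _ (by rw [hpd, hpd]; decide))
  have h12 : q (p 1) < q (p 2) := lt_of_le_of_ne (hm (by rw [Fin.le_def]; omega))
    (hne _ _ (by rw [hpd, hpd]; decide))
  have l2 := (q (p 2)).isLt
  rw [Fin.lt_def] at h01 h12
  intro a
  ext
  change (q a : ℕ) = (a : ℕ) / T
  have ha := a.isLt
  have hd3 : (a : ℕ) / T < 3 := (cT T a).isLt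
  have hla := (q a).isLt
  have hk : (a : ℕ) / T = 0 ∨ (a : ℕ) / T = 1 ∨ (a : ℕ) / T = 2 := by
    generalize (a : ℕ) / T = k at hd3
    omega
  have hne' : ∀ i : Fin 3, (a : ℕ) / T ≠ i → (q a : ℕ) ≠ q (p i) := by
    intro i hi h
    exact hne a (p i) (by rw [hpd]; exact hi) (Fin.ext h)
  rcases hk with hk | hk | hk
  · have h1 : (a : ℕ) < T := by
      rcases (Nat.div_eq_zero_iff).1 hk with h | h
      · omega
      · exact h
    have h2 : q a ≤ q (p 1) := hm (by rw [Fin.le_def]; omega)
    rw [Fin.le_def] at h2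
    have h3 := hne' 1 (by rw [hk]; decide)
    rw [hk]
    omega
  · have h3 := hne' 0 (by rw [hk]; decide)
    have h4 := hne' 2 (by rw [hk]; decide)
    rw [hk]
    have h5 : q (p 0) ≤ q a := hm (by rw [Fin.le_def]; omega)
    have h6 : (a : ℕ) < 2 * T := by
      have := Nat.lt_of_div_lt_div (a := (a : ℕ)) (b := 2 * T) (c := T) (by
        rw [hk, Nat.mul_div_cancel _ (by omega)]; norm_num)
      exact this
    have h7 : q a ≤ q (p 2) := hm (by rw [Fin.le_def]; omega)
    rw [Fin.le_def] at h5 h7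
    omega
  · have h3 := hne' 1 (by rw [hk]; decide)
    have h6 : T ≤ (a : ℕ) := by
      by_contra hc
      rw [Nat.div_eq_of_lt (by omega)] at hk
      omega
    have h7 : q (p 1) ≤ q a := hm (by rw [Fin.le_def]; omega)
    rw [Fin.le_def] at h7
    rw [hk]
    omega

lemma bottle_ge' (hT : 1 ≤ T) {N : ℕ} {B : SimpleGraph (Fin N)} (hb : IsBottlegraph (KT T) B) :
    3 ≤ chiCr B := by
  classical
  obtain ⟨hN, k, c, hc, hB, hall⟩ := hb
  obtain ⟨φ, hφ⟩ := exists_sorted c
  obtain ⟨t, ht, P, hP, hcov⟩ := hall 1 φ (fun u v h => hφ u v h)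
  -- the part of a vertex of the blow-up
  let q : Fin (N * t) → Fin k := fun x => c (φ.symm x.divNat)
  have hq : Monotone q := by
    intro x y hxy
    have h1 : x.divNat ≤ y.divNat := divNat_mono hxy
    by_contra hcon
    have h2 := hφ _ _ (not_le.1 hcon)
    rw [Equiv.apply_symm_apply, Equiv.apply_symm_apply] at h2
    exact absurd h1 (not_le.2 h2)
  have hcopy : ∀ f ∈ P, ∀ a b : Fin (3 * T), (a : ℕ) / T ≠ (b : ℕ) / T → q (f a) ≠ q (f b) := by
    intro f hf a b hab
    have h := (hP.1 f hf).2 a b hab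
    change B.Adj (φ.symm _) (φ.symm _) at h
    exact (hB _ _).1 h
  -- a copy exists
  have hpos : 0 < N * t := Nat.mul_pos hN ht
  have hk : 3 ≤ k := by
    have hx : (⟨0, hpos⟩ : Fin (N * t)) ∈ covered P := by rw [hcov]; exact Set.mem_univ _
    simp only [covered, Set.mem_iUnion] at hx
    obtain ⟨f, hf, -⟩ := hx
    have hpd : ∀ i : Fin 3, (pt T i ⟨0, hT⟩ : ℕ) / T = i := fun i => by
      have := cT_pt i (⟨0, hT⟩ : Fin T)
      exact congrArg Fin.val this
    have h01 := hcopy f hf (pt T 0 ⟨0, hT⟩) (pt T 1 ⟨0, hT⟩) (by rw [hpd, hpd]; decide)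
    have h02 := hcopy f hf (pt T 0 ⟨0, hT⟩) (pt T 2 ⟨0, hT⟩) (by rw [hpd, hpd]; decide)
    have h12 := hcopy f hf (pt T 1 ⟨0, hT⟩) (pt T 2 ⟨0, hT⟩) (by rw [hpd, hpd]; decide)
    have h1 := (q (f (pt T 0 ⟨0, hT⟩))).isLt
    have h2 := (q (f (pt T 1 ⟨0, hT⟩))).isLt
    have h3 := (q (f (pt T 2 ⟨0, hT⟩))).isLt
    rw [Ne, Fin.ext_iff] at h01 h02 h12
    omega
  unfold chiCr
  rw [mp_chrom hc hB]
  obtain ⟨j, hj⟩ := mp_least_mem (by omega) hc hB
  -- the least class misses a vertex
  have hlt : leastClass B k < N := by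
    obtain ⟨l, hl⟩ : ∃ l : Fin k, l ≠ j := by
      by_cases h0 : j = ⟨0, by omega⟩
      · refine ⟨⟨1, by omega⟩, ?_⟩
        rw [h0]
        intro h
        rw [Fin.ext_iff] at h
        simp at h
      · exact ⟨⟨0, by omega⟩, fun h => h0 h.symm⟩
    obtain ⟨v, hv⟩ := hc l
    rw [hj]
    have : {v | c v = j} ⊂ Set.univ := by
      refine ⟨Set.subset_univ _, fun h => ?_⟩
      have hh := h (Set.mem_univ v)
      simp only [Set.mem_ofPred_eq] at hh
      exact hl (hv.symm.trans hh)
    have h := Set.ncard_lt_ncard this (Set.toFinite _)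
    rw [Set.ncard_univ, Nat.card_eq_fintype_card, Fintype.card_fin] at h
    exact h
  have hNpos : (0 : ℝ) < N := by exact_mod_cast hN
  have hltR : (leastClass B k : ℝ) < N := by exact_mod_cast hlt
  have hden : (0 : ℝ) < N - leastClass B k := by linarith
  rw [le_div_iff₀ hden]
  rcases Nat.lt_or_ge 3 k with hk4 | hk3
  · have hk4' : (4 : ℝ) ≤ k := by exact_mod_cast hk4
    have h0 : (0 : ℝ) ≤ leastClass B k := Nat.cast_nonneg _
    nlinarith
  · have hk3' : k = 3 := by omega
    subst hk3'
    -- each copy meets each part of the blow-up in `T` vertices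
    set P' : Finset (Fin (3 * T) → Fin (N * t)) := P.toFinite.toFinset with hP'
    have hmem : ∀ f, f ∈ P' ↔ f ∈ P := fun f => P.toFinite.mem_toFinset
    have hchain : ∀ f ∈ P, ∀ a, q (f a) = cT T a := by
      intro f hf
      exact chain3 hT (fun a => q (f a)) (fun a b hab => hq ((hP.1 f hf).1.monotone hab))
        (fun a b hab => hcopy f hf a b hab)
    have hcount : ∀ i : Fin 3,
        (Finset.univ.filter (fun x : Fin (N * t) => q x = i)).card = T * P'.card := by
      intro i
      have heq : Finset.univ.filter (fun x : Fin (N * t) => q x = i) =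
          P'.biUnion (fun f =>
            (Finset.univ.filter (fun a : Fin (3 * T) => cT T a = i)).image f) := by
        ext x
        simp only [Finset.mem_filter, Finset.mem_univ, true_and, Finset.mem_biUnion,
          Finset.mem_image]
        constructor
        · intro hx
          have hx' : x ∈ covered P := by rw [hcov]; exact Set.mem_univ _
          simp only [covered, Set.mem_iUnion, Set.mem_range] at hx'
          obtain ⟨f, hf, a, rfl⟩ := hx'
          exact ⟨f, (hmem f).2 hf, a, by rw [← hchain f hf a]; exact hx, rfl⟩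
        · rintro ⟨f, hf, a, ha, rfl⟩
          rw [hchain f ((hmem f).1 hf) a]
          exact ha
      rw [heq, Finset.card_biUnion]
      · have : ∀ f ∈ P',
            ((Finset.univ.filter (fun a : Fin (3 * T) => cT T a = i)).image f).card = T := by
          intro f hf
          rw [Finset.card_image_of_injective _ (hP.1 f ((hmem f).1 hf)).1.injective]
          exact cT_fibre hT i
        rw [Finset.sum_congr rfl this, Finset.sum_const, smul_eq_mul, mul_comm]
      · intro f hf g hg hfg
        have h := hP.2 f ((hmem f).1 hf) g ((hmem g).1 hg) hfg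
        refine Finset.disjoint_left.2 ?_
        intro x hx hy
        rw [Finset.mem_image] at hx hy
        obtain ⟨i, -, hi⟩ := hx
        obtain ⟨j, -, hj⟩ := hy
        exact Set.disjoint_left.1 h ⟨i, hi⟩ ⟨j, hj⟩
    have hpart : ∀ i : Fin 3,
        t * (Finset.univ.filter (fun v : Fin N => c v = i)).card = T * P'.card := by
      intro i
      rw [← hcount i, card_fiber (fun y : Fin N => c (φ.symm y) = i)]
      congr 1
      apply Finset.card_bij (fun v _ => φ v)
      · intro v hv
        simpa using hv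
      · intro v _ w _ h
        exact φ.injective h
      · intro y hy
        exact ⟨φ.symm y, by simpa using hy, by simp⟩
    have hsum : ∑ i : Fin 3, (Finset.univ.filter (fun v : Fin N => c v = i)).card = N := by
      have := Finset.card_eq_sum_card_fiberwise (f := c) (s := (Finset.univ : Finset (Fin N)))
        (t := (Finset.univ : Finset (Fin 3))) (fun _ _ => Finset.mem_coe.2 (Finset.mem_univ _))
      rw [Finset.card_univ, Fintype.card_fin] at this
      exact this.symm
    rw [Fin.sum_univ_three] at hsum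
    have e0 := hpart 0
    have e1 := hpart 1
    have e2 := hpart 2
    have ej := hpart j
    have hjc : leastClass B 3 = (Finset.univ.filter (fun v : Fin N => c v = j)).card := by
      rw [hj, ← Set.ncard_coe_finset]
      congr 1
      ext v
      simp
    have h3 : t * (3 * leastClass B 3) = t * N := by
      rw [hjc]
      have hs := congrArg (fun z => t * z) hsum
      simp only [mul_add] at hs
      rw [← hs]
      linarith
    have h4 : 3 * leastClass B 3 = N := Nat.eq_of_mul_eq_mul_left ht h3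
    have h5 : (3 : ℝ) * leastClass B 3 = N := by exact_mod_cast h4
    push_cast
    linarith

end

theorem chi : S_chi := by
  intro T hT
  apply le_antisymm
  · have hbdd : BddBelow {x : ℝ | ∃ (N : ℕ) (B : SimpleGraph (Fin N)),
        IsBottlegraph (KT T) B ∧ x = chiCr B} := by
      refine ⟨3, ?_⟩
      rintro x ⟨N, B, hb, rfl⟩
      exact bottle_ge' hT hb
    have hmem : chiCr (KT T) ∈ {x : ℝ | ∃ (N : ℕ) (B : SimpleGraph (Fin N)),
        IsBottlegraph (KT T) B ∧ x = chiCr B} := ⟨3 * T, KT T, KT_bottle hT, rfl⟩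
    exact (csInf_le hbdd hmem).trans (chiCr_KT_le hT)
  · have hne : {x : ℝ | ∃ (N : ℕ) (B : SimpleGraph (Fin N)),
        IsBottlegraph (KT T) B ∧ x = chiCr B}.Nonempty := ⟨_, 3 * T, KT T, KT_bottle hT, rfl⟩
    refine le_csInf hne ?_
    rintro x ⟨N, B, hb, rfl⟩
    exact bottle_ge' hT hb

end Pool.Agent.Y996.OT
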