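import Pool.Agent.Y996.OT.Stm

/-!
A tiling of `big a s F` with `F` free of `K_{T,T}` misses at least `3 s` vertices.
-/

set_option autoImplicit false

namespace Pool.Agent.Y996.OT

open Pool.Agent.H730R4

lemma copy_low' {T a s : ℕ} (hT : 1 ≤ T) {F : SimpleGraph (Fin (a + 2 * s))} (hF : KFree T F)
    {f : Fin (3 * T) → Fin (3 * a + 3 * s)} (hf : IsCopy (KT T) (big a s F) f)
    (i0 : Fin (3 * T)) (hi0 : (i0 : ℕ) < T) : (f i0 : ℕ) < a := by
  set l : Fin (3 * T) := ⟨T - 1, by omega⟩ with hl
  have hlv : (l : ℕ) = T - 1 := rfl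
  have hmono := hf.1
  suffices h : (f l : ℕ) < a by
    have h1 : i0 ≤ l := by
      rw [Fin.le_def, hlv]
      omega
    have h2 : f i0 ≤ f l := hmono.monotone h1
    rw [Fin.le_def] at h2
    omega
  by_contra hcon
  have hhigh : ∀ j : Fin (3 * T), T ≤ (j : ℕ) → 2 * a + s ≤ (f j : ℕ) := by
    intro j hj
    have h1j : l < j := by
      rw [Fin.lt_def, hlv]
      omega
    have hlt : (f l : ℕ) < f j := hmono h1j
    have hadj : (KT T).Adj l j := by
      change (l : ℕ) / T ≠ (j : ℕ) / T
      rw [hlv, Nat.div_eq_of_lt (by omega)]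
      have : 1 ≤ (j : ℕ) / T := (Nat.one_le_div_iff (by omega)).2 hj
      omega
    rcases hf.2 l j hadj with h | ⟨i, k, h1, h2, -⟩
    · unfold part at h
      by_contra hc
      split_ifs at h <;> omega
    · omega
  have hFadj : ∀ j k : Fin (3 * T), T ≤ (j : ℕ) → T ≤ (k : ℕ) → (KT T).Adj j k →
      ∀ i i' : Fin (a + 2 * s), (f j : ℕ) = 2 * a + s + i → (f k : ℕ) = 2 * a + s + i' →
      F.Adj i i' := by
    intro j k hj hk hjk i i' hi hi'
    rcases hf.2 j k hjk with h | ⟨u, v, h1, h2, h3⟩
    · exfalso
      apply h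
      have h4 := hhigh j hj
      have h5 := hhigh k hk
      unfold part
      rw [if_neg (by omega), if_neg (by omega), if_neg (by omega), if_neg (by omega)]
    · have e1 : u = i := by ext; omega
      have e2 : v = i' := by ext; omega
      rw [e1, e2] at h3
      exact h3
  let x : Fin T → Fin (a + 2 * s) := fun i =>
    ⟨(f ⟨T + i, by have := i.isLt; omega⟩ : ℕ) - (2 * a + s), by
      have h1 := hhigh ⟨T + i, by have := i.isLt; omega⟩ (by simp only; omega)
      have h2 := (f ⟨T + i, by have := i.isLt; omega⟩).isLt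
      omega⟩
  let y : Fin T → Fin (a + 2 * s) := fun i =>
    ⟨(f ⟨2 * T + i, by have := i.isLt; omega⟩ : ℕ) - (2 * a + s), by
      have h1 := hhigh ⟨2 * T + i, by have := i.isLt; omega⟩ (by simp only; omega)
      have h2 := (f ⟨2 * T + i, by have := i.isLt; omega⟩).isLt
      omega⟩
  have hx : ∀ i : Fin T, (f ⟨T + i, by have := i.isLt; omega⟩ : ℕ) = 2 * a + s + x i := by
    intro i
    have h1 := hhigh ⟨T + i, by have := i.isLt; omega⟩ (by simp only; omega)
    simp only [x]
    omega
  have hy : ∀ i : Fin T, (f ⟨2 * T + i, by have := i.isLt; omega⟩ : ℕ) = 2 * a + s + y i := by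
    intro i
    have h1 := hhigh ⟨2 * T + i, by have := i.isLt; omega⟩ (by simp only; omega)
    simp only [y]
    omega
  refine hF x y ?_ ?_ ?_
  · intro i i' hii
    have h1 := hx i
    rw [hii, ← hx i'] at h1
    have h2 := hmono.injective (Fin.ext h1)
    rw [Fin.ext_iff] at h2
    simp only at h2
    ext
    omega
  · intro i i' hii
    have h1 := hy i
    rw [hii, ← hy i'] at h1
    have h2 := hmono.injective (Fin.ext h1)
    rw [Fin.ext_iff] at h2
    simp only at h2
    ext
    omega
  · intro i j
    refine hFadj ⟨T + i, by have := i.isLt; omega⟩ ⟨2 * T + j, by have := j.isLt; omega⟩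
      (by simp only; omega) (by simp only; omega) ?_ _ _ (hx i) (hy j)
    change (T + (i : ℕ)) / T ≠ (2 * T + (j : ℕ)) / T
    have h1 : (T + (i : ℕ)) / T = 1 := by
      rw [Nat.add_div_left _ (by omega), Nat.div_eq_of_lt i.isLt]
    have h2 : (2 * T + (j : ℕ)) / T = 2 := by
      rw [mul_comm, Nat.mul_add_div (by omega), Nat.div_eq_of_lt j.isLt]
    rw [h1, h2]
    decide

theorem gap : S_gap := by
  classical
  intro T a s F hT hF P hP
  set P' : Finset (Fin (3 * T) → Fin (3 * a + 3 * s)) := P.toFinite.toFinset with hP'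
  have hmem : ∀ f, f ∈ P' ↔ f ∈ P := fun f => P.toFinite.mem_toFinset
  have hcov : covered P = ↑(P'.biUnion fun f => Finset.univ.image f) := by
    ext x
    simp [covered, hmem]
  have hcard : (covered P).ncard ≤ 3 * T * P'.card := by
    rw [hcov, Set.ncard_coe_finset]
    calc (P'.biUnion fun f => Finset.univ.image f).card
        ≤ ∑ f ∈ P', (Finset.univ.image f).card := Finset.card_biUnion_le
      _ ≤ ∑ f ∈ P', 3 * T := Finset.sum_le_sum fun f _ => by
          simpa using (Finset.card_image_le (s := (Finset.univ : Finset (Fin (3 * T)))) (f := f))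
      _ = 3 * T * P'.card := by rw [Finset.sum_const, smul_eq_mul, mul_comm]
  set L : Finset (Fin (3 * T)) := Finset.univ.filter (fun i => (i : ℕ) < T) with hL
  have hLc : L.card = T := by
    have : L = (Finset.univ : Finset (Fin T)).map (Fin.castLEEmb (by omega : T ≤ 3 * T)) := by
      ext i
      rw [hL, Finset.mem_filter, Finset.mem_map]
      constructor
      · rintro ⟨-, hi⟩
        exact ⟨⟨i, hi⟩, Finset.mem_univ _, by ext; rfl⟩
      · rintro ⟨j, -, rfl⟩
        exact ⟨Finset.mem_univ _, j.isLt⟩
    rw [this, Finset.card_map, Finset.card_univ, Fintype.card_fin]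
  have hlow : T * P'.card ≤ a := by
    have hd : ∀ f ∈ P', ∀ g ∈ P', f ≠ g → Disjoint (L.image f) (L.image g) := by
      intro f hf g hg hfg
      have h := hP.2 f ((hmem f).1 hf) g ((hmem g).1 hg) hfg
      rw [Finset.disjoint_left]
      intro x hx hy
      rw [Finset.mem_image] at hx hy
      obtain ⟨i, -, hi⟩ := hx
      obtain ⟨j, -, hj⟩ := hy
      exact Set.disjoint_left.1 h ⟨i, hi⟩ ⟨j, hj⟩
    have h1 : (P'.biUnion fun f => L.image f).card = T * P'.card := by
      rw [Finset.card_biUnion hd]
      have : ∀ f ∈ P', (L.image f).card = T := by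
        intro f hf
        have hinj := (hP.1 f ((hmem f).1 hf)).1.injective
        rw [Finset.card_image_of_injective _ hinj, hLc]
      rw [Finset.sum_congr rfl this, Finset.sum_const, smul_eq_mul, mul_comm]
    have h2 : (P'.biUnion fun f => L.image f) ⊆
        (Finset.univ.filter fun x : Fin (3 * a + 3 * s) => (x : ℕ) < a) := by
      intro x hx
      rw [Finset.mem_biUnion] at hx
      obtain ⟨f, hf, hx⟩ := hx
      rw [Finset.mem_image] at hx
      obtain ⟨i, hi, rfl⟩ := hx
      have hc := hP.1 f ((hmem f).1 hf)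
      rw [Finset.mem_filter]
      exact ⟨Finset.mem_univ _, copy_low' hT hF hc i (Finset.mem_filter.1 hi).2⟩
    have h3 : (Finset.univ.filter fun x : Fin (3 * a + 3 * s) => (x : ℕ) < a).card ≤ a := by
      have : (Finset.univ.filter fun x : Fin (3 * a + 3 * s) => (x : ℕ) < a).card ≤
          (Finset.range a).card := by
        apply Finset.card_le_card_of_injOn (fun x : Fin (3 * a + 3 * s) => (x : ℕ))
        · intro x hx
          simpa using hx
        · intro x _ y _ h
          exact Fin.ext h
      simpa using this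
    have h4 := Finset.card_le_card h2
    omega
  have hsum := Set.ncard_add_ncard_compl (covered P)
  rw [Nat.card_eq_fintype_card, Fintype.card_fin] at hsum
  have h5 : 3 * T * P'.card ≤ 3 * a := by
    calc 3 * T * P'.card = 3 * (T * P'.card) := by ring
      _ ≤ 3 * a := Nat.mul_le_mul_left 3 hlow
  omega

end Pool.Agent.Y996.OT
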