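import Pool.Agent.Y996.OT.Stm

/-!
A subgraph of large minimum degree.
-/

set_option autoImplicit false

namespace Pool.Agent.Y996.OT

open Finset

/-- number of edges inside a vertex set -/
noncomputable def ein {m : ℕ} (F : SimpleGraph (Fin m)) (A : Finset (Fin m)) : ℕ :=
  {e | e ∈ F.edgeSet ∧ ∀ v ∈ e, v ∈ A}.ncard

theorem step {m D : ℕ} (F : SimpleGraph (Fin m)) (hD : 1 ≤ D) : ∀ k : ℕ, ∀ A : Finset (Fin m),
    A.card = k → 1 ≤ k → D * k ≤ ein F A →
    ∃ B : Finset (Fin m), B.Nonempty ∧ ∀ v ∈ B, D ≤ {w | w ∈ B ∧ F.Adj v w}.ncard := by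
  classical
  intro k
  induction k with
  | zero => intro A _ h; omega
  | succ k ih =>
      intro A hA _ he
      by_cases hall : ∀ v ∈ A, D ≤ {w | w ∈ A ∧ F.Adj v w}.ncard
      · exact ⟨A, card_pos.1 (by omega), hall⟩
      · push Not at hall
        obtain ⟨v, hv, hlt⟩ := hall
        -- edges inside A are edges inside A \ v together with edges at v
        have hsub : {e | e ∈ F.edgeSet ∧ ∀ x ∈ e, x ∈ A} ⊆
            {e | e ∈ F.edgeSet ∧ ∀ x ∈ e, x ∈ A.erase v} ∪
              (fun w => s(v, w)) '' {w | w ∈ A ∧ F.Adj v w} := by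
          rintro e ⟨he1, he2⟩
          by_cases hve : v ∈ e
          · right
            obtain ⟨w, rfl⟩ := Sym2.mem_iff_exists.1 hve
            refine ⟨w, ⟨he2 w (Sym2.mem_mk_right _ _), ?_⟩, rfl⟩
            exact (SimpleGraph.mem_edgeSet F).1 he1
          · left
            refine ⟨he1, fun x hx => ?_⟩
            rw [mem_erase]
            refine ⟨?_, he2 x hx⟩
            rintro rfl
            exact hve hx
        have h1 : ein F A ≤ ein F (A.erase v) + {w | w ∈ A ∧ F.Adj v w}.ncard := by
          unfold ein
          refine (Set.ncard_le_ncard hsub (Set.toFinite _)).trans ?_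
          refine (Set.ncard_union_le _ _).trans ?_
          exact Nat.add_le_add_left (Set.ncard_image_le (Set.toFinite _)) _
        have h2 : D * k ≤ ein F (A.erase v) := by
          rw [Nat.mul_succ] at he
          omega
        have hpos : 0 < ein F (A.erase v) := by
          rw [Nat.mul_succ] at he
          omega
        have hk : 1 ≤ k := by
          by_contra hk
          have h3 : A.erase v = ∅ := by
            rw [← card_eq_zero, card_erase_of_mem hv, hA]
            omega
          rw [h3] at hpos
          unfold ein at hpos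
          rw [Set.ncard_pos (Set.toFinite _)] at hpos
          obtain ⟨e, he1, he2⟩ := hpos
          induction e using Sym2.ind with
          | _ x y => exact absurd (he2 x (Sym2.mem_mk_left _ _)) (notMem_empty _)
        exact ih (A.erase v) (by rw [card_erase_of_mem hv, hA]; rfl) hk h2

theorem mind : S_min := by
  classical
  intro m D F hm hD he
  obtain ⟨B, hB, hdeg⟩ := step F hD m univ (by simp) hm (by
    unfold ein
    have : {e | e ∈ F.edgeSet ∧ ∀ v ∈ e, v ∈ (univ : Finset (Fin m))} = F.edgeSet := by
      ext e
      simp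
    rw [this]
    exact he)
  let e : Fin B.card ≃ B := B.equivFin.symm
  refine ⟨B.card, F.comap (fun i => (e i : Fin m)), fun i => (e i : Fin m), card_pos.2 hB, ?_, ?_,
    fun u v h => h, ?_⟩
  · have := card_le_univ B
    simpa using this
  · exact Subtype.val_injective.comp e.injective
  · intro i
    refine (hdeg (e i) (e i).2).trans ?_
    have hsub : {w | w ∈ B ∧ F.Adj (e i) w} ⊆
        (fun j => (e j : Fin m)) '' ((F.comap (fun i => (e i : Fin m))).neighborSet i) := by
      rintro w ⟨hw, hadj⟩
      refine ⟨e.symm ⟨w, hw⟩, ?_, by simp⟩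
      rw [SimpleGraph.mem_neighborSet, SimpleGraph.comap_adj]
      simpa using hadj
    refine (Set.ncard_le_ncard hsub (Set.toFinite _)).trans ?_
    exact Set.ncard_image_le (Set.toFinite _)

end Pool.Agent.Y996.OT
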