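import Pool.Agent.Y996.OT.Stm

/-!
A dense graph without `K_{T,T}`, by averaging over all colourings of the pairs.
-/

set_option autoImplicit false

namespace Pool.Agent.Y996.OT

open Finset

section

variable {m q T : ℕ}

/-- the graph of the pairs of colour `z` -/
def Gc (z : Fin q) (c : Sym2 (Fin m) → Fin q) : SimpleGraph (Fin m) where
  Adj u v := u ≠ v ∧ c s(u, v) = z
  symm := ⟨fun u v h => ⟨h.1.symm, by rw [Sym2.eq_swap]; exact h.2⟩⟩
  loopless := ⟨fun u h => h.1 rfl⟩

lemma count (z : Fin q) (S : Finset (Sym2 (Fin m))) :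
    (univ.filter (fun c : Sym2 (Fin m) → Fin q => ∀ e ∈ S, c e = z)).card * q ^ S.card =
      q ^ Fintype.card (Sym2 (Fin m)) := by
  classical
  have h1 : univ.filter (fun c : Sym2 (Fin m) → Fin q => ∀ e ∈ S, c e = z) =
      Fintype.piFinset (fun e : Sym2 (Fin m) => if e ∈ S then {z} else univ) := by
    ext c
    rw [mem_filter, Fintype.mem_piFinset]
    constructor
    · rintro ⟨-, h⟩ e
      by_cases he : e ∈ S
      · rw [if_pos he, mem_singleton]
        exact h e he
      · rw [if_neg he]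
        exact mem_univ _
    · intro h
      refine ⟨mem_univ _, fun e he => ?_⟩
      have := h e
      rw [if_pos he, mem_singleton] at this
      exact this
  rw [h1, Fintype.card_piFinset]
  have h2 : q ^ S.card = ∏ e : Sym2 (Fin m), if e ∈ S then q else 1 := by
    rw [Finset.prod_ite_mem, univ_inter, prod_const]
  rw [h2, ← prod_mul_distrib]
  have h3 : ∀ e : Sym2 (Fin m), ((if e ∈ S then ({z} : Finset (Fin q)) else univ).card *
      if e ∈ S then q else 1) = q := by
    intro e
    by_cases he : e ∈ S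
    · rw [if_pos he, if_pos he, card_singleton, one_mul]
    · rw [if_neg he, if_neg he, card_univ, Fintype.card_fin, mul_one]
  rw [prod_congr rfl (fun e _ => h3 e), prod_const, card_univ]

/-- the pairs of `T`-tuples of distinct vertices with disjoint ranges -/
def XX (m T : ℕ) : Finset ((Fin T → Fin m) × (Fin T → Fin m)) := by
  classical
  exact univ.filter (fun p => Function.Injective p.1 ∧ Function.Injective p.2 ∧
    ∀ i j, p.1 i ≠ p.2 j)

lemma mem_XX (p : (Fin T → Fin m) × (Fin T → Fin m)) :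
    p ∈ XX m T ↔ Function.Injective p.1 ∧ Function.Injective p.2 ∧ ∀ i j, p.1 i ≠ p.2 j := by
  classical
  unfold XX
  rw [mem_filter]
  exact ⟨fun h => h.2, fun h => ⟨mem_univ _, h⟩⟩

lemma card_XX : (XX m T).card ≤ (m ^ 2) ^ T := by
  classical
  refine (card_le_univ _).trans ?_
  rw [Fintype.card_prod, Fintype.card_fun, Fintype.card_fin, Fintype.card_fin, ← mul_pow, sq]

lemma count_pair (z : Fin q) (p : (Fin T → Fin m) × (Fin T → Fin m)) (hp : p ∈ XX m T) :
    (univ.filter (fun c : Sym2 (Fin m) → Fin q => ∀ i j, c s(p.1 i, p.2 j) = z)).card *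
      q ^ (T * T) = q ^ Fintype.card (Sym2 (Fin m)) := by
  classical
  obtain ⟨h1, h2, h3⟩ := (mem_XX p).1 hp
  have hinj : Function.Injective (fun ij : Fin T × Fin T => s(p.1 ij.1, p.2 ij.2)) := by
    rintro ⟨i, j⟩ ⟨i', j'⟩ h
    simp only [Sym2.eq_iff] at h
    rcases h with ⟨ha, hb⟩ | ⟨ha, -⟩
    · rw [h1 ha, h2 hb]
    · exact absurd ha (h3 i j')
  have h4 := count (m := m) z (univ.image (fun ij : Fin T × Fin T => s(p.1 ij.1, p.2 ij.2)))
  rw [card_image_of_injective _ hinj, card_univ, Fintype.card_prod, Fintype.card_fin] at h4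
  rw [← h4]
  congr 2
  ext c
  simp only [mem_filter, mem_univ, true_and, mem_image, Prod.exists]
  constructor
  · rintro h e ⟨i, j, rfl⟩
    exact h i j
  · intro h i j
    exact h _ ⟨i, j, rfl⟩

lemma exists_colouring (hT : 2 ≤ T) (hm : 2 ≤ m) (hq : 8 * m ^ 2 ≤ q ^ (T + 1)) (z : Fin q) :
    ∃ c : Sym2 (Fin m) → Fin q,
      m ^ 2 + 8 * q * ((XX m T).filter (fun p => ∀ i j, c s(p.1 i, p.2 j) = z)).card ≤
        8 * q * ((univ.filter (fun e : Sym2 (Fin m) => ¬ e.IsDiag)).filter
          (fun e => c e = z)).card := by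
  classical
  have hq0 : 0 < q := z.pos
  set W : ℕ := q ^ Fintype.card (Sym2 (Fin m)) with hW
  have hWc : Fintype.card (Sym2 (Fin m) → Fin q) = W := by
    rw [Fintype.card_fun, Fintype.card_fin]
  have hWpos : 0 < W := pow_pos hq0 _
  set nd : Finset (Sym2 (Fin m)) := univ.filter (fun e : Sym2 (Fin m) => ¬ e.IsDiag) with hnd
  have hndc : nd.card = m.choose 2 := by
    rw [hnd, ← Fintype.card_subtype, Sym2.card_subtype_not_diag, Fintype.card_fin]
  set SE : ℕ := ∑ c : Sym2 (Fin m) → Fin q, (nd.filter (fun e => c e = z)).card with hSE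
  set SN : ℕ := ∑ c : Sym2 (Fin m) → Fin q,
    ((XX m T).filter (fun p => ∀ i j, c s(p.1 i, p.2 j) = z)).card with hSN
  have hE : SE * q = m.choose 2 * W := by
    have h1 : SE = ∑ e ∈ nd, (univ.filter (fun c : Sym2 (Fin m) → Fin q => c e = z)).card := by
      rw [hSE]
      simp only [card_filter]
      rw [sum_comm]
    rw [h1, sum_mul]
    have h2 : ∀ e ∈ nd, (univ.filter (fun c : Sym2 (Fin m) → Fin q => c e = z)).card * q = W := by
      intro e _
      have h3 := count (m := m) z {e}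
      rw [card_singleton, pow_one] at h3
      rw [hW, ← h3]
      congr 2
      ext c
      simp
    rw [sum_congr rfl h2, sum_const, hndc, smul_eq_mul]
  have hN : SN * q ^ (T * T) = (XX m T).card * W := by
    have h1 : SN = ∑ p ∈ XX m T,
        (univ.filter (fun c : Sym2 (Fin m) → Fin q => ∀ i j, c s(p.1 i, p.2 j) = z)).card := by
      rw [hSN]
      simp only [card_filter]
      rw [sum_comm]
    rw [h1, sum_mul, sum_congr rfl (fun p hp => count_pair z p hp), sum_const, smul_eq_mul]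
  have hchoose : 2 * m ^ 2 ≤ 8 * m.choose 2 := by
    have h1 := Nat.choose_two_right m
    have h2 : m.choose 2 * 2 = m * (m - 1) := by
      rw [h1]
      exact Nat.div_mul_cancel (Nat.even_mul_pred_self m).two_dvd
    obtain ⟨k, rfl⟩ : ∃ k, m = k + 2 := ⟨m - 2, by omega⟩
    have h3 : k + 2 - 1 = k + 1 := by omega
    rw [h3] at h2
    nlinarith
  have hkey : 8 * q * SN ≤ m ^ 2 * W := by
    have h1 : 8 * (m ^ 2) ^ T ≤ m ^ 2 * q ^ (T * T - 1) := by
      have h2 : (8 * m ^ 2) ^ (T - 1) ≤ q ^ (T * T - 1) := by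
        calc (8 * m ^ 2) ^ (T - 1) ≤ (q ^ (T + 1)) ^ (T - 1) := Nat.pow_le_pow_left hq _
          _ = q ^ (T * T - 1) := by
              rw [← pow_mul]
              congr 1
              obtain ⟨k, rfl⟩ : ∃ k, T = k + 1 := ⟨T - 1, by omega⟩
              have : (k + 1) * (k + 1) - 1 = (k + 1 + 1) * k := by
                have : (k + 1) * (k + 1) = (k + 1 + 1) * k + 1 := by ring
                omega
              rw [this]
              rfl
      calc 8 * (m ^ 2) ^ T = m ^ 2 * (8 ^ 1 * (m ^ 2) ^ (T - 1)) := by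
            obtain ⟨k, rfl⟩ : ∃ k, T = k + 1 := ⟨T - 1, by omega⟩
            rw [Nat.add_sub_cancel, pow_succ]
            ring
        _ ≤ m ^ 2 * (8 ^ (T - 1) * (m ^ 2) ^ (T - 1)) := by
            apply Nat.mul_le_mul_left
            apply Nat.mul_le_mul_right
            exact Nat.pow_le_pow_right (by norm_num) (by omega)
        _ = m ^ 2 * (8 * m ^ 2) ^ (T - 1) := by rw [mul_pow]
        _ ≤ m ^ 2 * q ^ (T * T - 1) := Nat.mul_le_mul_left _ h2
    have h3 : q ^ (T * T) = q * q ^ (T * T - 1) := by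
      rw [← pow_succ']
      congr 1
      have : 1 ≤ T * T := Nat.mul_pos (by omega) (by omega)
      omega
    have h4 : q ^ (T * T - 1) * (8 * q * SN) ≤ q ^ (T * T - 1) * (m ^ 2 * W) := by
      calc q ^ (T * T - 1) * (8 * q * SN) = 8 * (SN * q ^ (T * T)) := by rw [h3]; ring
        _ = 8 * ((XX m T).card * W) := by rw [hN]
        _ ≤ 8 * ((m ^ 2) ^ T * W) :=
          Nat.mul_le_mul_left _ (Nat.mul_le_mul_right _ card_XX)
        _ = (8 * (m ^ 2) ^ T) * W := by ring
        _ ≤ (m ^ 2 * q ^ (T * T - 1)) * W := Nat.mul_le_mul_right _ h1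
        _ = q ^ (T * T - 1) * (m ^ 2 * W) := by ring
    exact Nat.le_of_mul_le_mul_left h4 (pow_pos hq0 _)
  by_contra hcon
  push Not at hcon
  have hne : (univ : Finset (Sym2 (Fin m) → Fin q)).Nonempty := ⟨fun _ => z, mem_univ _⟩
  have hlt := sum_lt_sum_of_nonempty hne (fun c _ => hcon c)
  rw [← mul_sum, sum_add_distrib, ← mul_sum, sum_const, card_univ, hWc, smul_eq_mul] at hlt
  have h5 : 8 * q * SE = 8 * m.choose 2 * W := by
    calc 8 * q * SE = 8 * (SE * q) := by ring
      _ = 8 * (m.choose 2 * W) := by rw [hE]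
      _ = 8 * m.choose 2 * W := by ring
  have h6 : 2 * m ^ 2 * W ≤ 8 * m.choose 2 * W := Nat.mul_le_mul_right _ hchoose
  have h7 : 8 * q * SE < W * m ^ 2 + 8 * q * SN := hlt
  nlinarith

end

theorem rand : S_rand := by
  classical
  intro T q m hT hq hm h8
  let z : Fin q := ⟨0, hq⟩
  obtain ⟨c, hc⟩ := exists_colouring (T := T) hT hm h8 z
  set bad := (XX m T).filter (fun p => ∀ i j, c s(p.1 i, p.2 j) = z) with hbad
  set ed := (univ.filter (fun e : Sym2 (Fin m) => ¬ e.IsDiag)).filter (fun e => c e = z) with hed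
  let t0 : Fin T := ⟨0, by omega⟩
  let D : Finset (Sym2 (Fin m)) := bad.image (fun p => s(p.1 t0, p.2 t0))
  refine ⟨(Gc z c).deleteEdges (D : Set (Sym2 (Fin m))), ?_, ?_⟩
  · intro x y hx hy h
    have h1 : ∀ i j, (Gc z c).Adj (x i) (y j) := fun i j =>
      (SimpleGraph.deleteEdges_adj.1 (h i j)).1
    have hb : (x, y) ∈ bad := by
      rw [hbad, mem_filter, mem_XX]
      exact ⟨⟨hx, hy, fun i j => (h1 i j).1⟩, fun i j => (h1 i j).2⟩
    have h2 := (SimpleGraph.deleteEdges_adj.1 (h t0 t0)).2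
    apply h2
    rw [mem_coe, mem_image]
    exact ⟨(x, y), hb, rfl⟩
  · have h1 : (ed : Set (Sym2 (Fin m))) \ (D : Set (Sym2 (Fin m))) ⊆
        ((Gc z c).deleteEdges (D : Set (Sym2 (Fin m)))).edgeSet := by
      rintro e ⟨he, heD⟩
      rw [mem_coe, hed, mem_filter, mem_filter] at he
      induction e using Sym2.ind with
      | _ u v =>
        rw [SimpleGraph.mem_edgeSet, SimpleGraph.deleteEdges_adj]
        refine ⟨⟨?_, he.2⟩, heD⟩
        intro huv
        exact he.1.2 (Sym2.mk_isDiag_iff.2 huv)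
    have h2 := Set.ncard_le_ncard h1 (Set.toFinite _)
    have h3 := Set.le_ncard_sdiff (D : Set (Sym2 (Fin m))) (ed : Set (Sym2 (Fin m)))
      (Set.toFinite _)
    rw [Set.ncard_coe_finset, Set.ncard_coe_finset] at h3
    have h4 : D.card ≤ bad.card := card_image_le
    have h5 : ed.card - bad.card ≤
        ((Gc z c).deleteEdges (D : Set (Sym2 (Fin m)))).edgeSet.ncard := by omega
    have h6 : m ^ 2 ≤ 8 * q * (ed.card - bad.card) := by
      rw [Nat.mul_sub]
      omega
    exact h6.trans (Nat.mul_le_mul_left _ h5)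

end Pool.Agent.Y996.OT
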