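import Pool.Agent.Y996.OT.Stm

/-!
Assembly of the project OT (ordered tilings, MP_ced62d_co).
-/

set_option autoImplicit false

namespace Pool.Agent.Y996.OT

open Pool.Agent.H730R4 Filter

/-- Two disjoint copies of a graph. -/
def twice {m : ℕ} (F : SimpleGraph (Fin m)) : SimpleGraph (Bool × Fin m) where
  Adj x y := x.1 = y.1 ∧ F.Adj x.2 y.2
  symm := ⟨fun _ _ h => ⟨h.1.symm, h.2.symm⟩⟩
  loopless := ⟨fun x h => F.loopless.irrefl _ h.2⟩

lemma twice_kfree {m T : ℕ} (hT : 1 ≤ T) {F : SimpleGraph (Fin m)} (hF : KFree T F) :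
    KFree T (twice F) := by
  intro x y hx hy h
  let z : Fin T := ⟨0, hT⟩
  have hy1 : ∀ j, (y j).1 = (x z).1 := fun j => (h z j).1.symm
  have hx1 : ∀ i, (x i).1 = (x z).1 := fun i => (h i z).1.trans (hy1 z)
  refine hF (fun i => (x i).2) (fun j => (y j).2) ?_ ?_ (fun i j => (h i j).2)
  · intro i i' hi
    exact hx (Prod.ext ((hx1 i).trans (hx1 i').symm) hi)
  · intro j j' hj
    exact hy (Prod.ext ((hy1 j).trans (hy1 j').symm) hj)

lemma twice_deg {m D : ℕ} {F : SimpleGraph (Fin m)} (hF : ∀ v, D ≤ (F.neighborSet v).ncard)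
    (x : Bool × Fin m) : D ≤ ((twice F).neighborSet x).ncard := by
  refine (hF x.2).trans ?_
  have hinj : Function.Injective (fun w : Fin m => (x.1, w)) := fun a b h => (Prod.ext_iff.1 h).2
  rw [← Set.ncard_image_of_injective _ hinj]
  apply Set.ncard_le_ncard _ (Set.toFinite _)
  rintro _ ⟨w, hw, rfl⟩
  exact ⟨rfl, hw⟩

lemma transport {V : Type} [Fintype V] {M T D : ℕ} (hc : Fintype.card V = M)
    (F : SimpleGraph V) (hF : KFree T F) (hd : ∀ v, D ≤ (F.neighborSet v).ncard) :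
    ∃ F' : SimpleGraph (Fin M), KFree T F' ∧ ∀ v, D ≤ (F'.neighborSet v).ncard := by
  let e : V ≃ Fin M := Fintype.equivFinOfCardEq hc
  refine ⟨F.comap e.symm, ?_, ?_⟩
  · intro x y hx hy h
    exact hF (fun i => e.symm (x i)) (fun j => e.symm (y j)) (e.symm.injective.comp hx)
      (e.symm.injective.comp hy) h
  · intro v
    have h := hd (e.symm v)
    have h2 : e '' (F.neighborSet (e.symm v)) ⊆ (F.comap e.symm).neighborSet v := by
      rintro _ ⟨w, hw, rfl⟩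
      rw [SimpleGraph.mem_neighborSet] at hw ⊢
      simpa using hw
    have h3 := Set.ncard_le_ncard h2 (Set.toFinite _)
    rw [Set.ncard_image_of_injective _ e.injective] at h3
    exact h.trans h3

/-- The main construction. -/
theorem construct (hgap : S_gap) (hrand : S_rand) (hmin : S_min) (T b : ℕ) (hT : 2 ≤ T)
    (hb : 64 ≤ b) :
    ∃ (n D : ℕ) (G : SimpleGraph (Fin n)), b ^ (T - 1) / 64 = D ∧ 3 * D ≤ n ∧
      n ≤ 6 * b ^ (T + 1) ∧ (∀ v, 2 * n ≤ 3 * (G.neighborSet v).ncard) ∧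
      ∀ P : Set (Fin (3 * T) → Fin n), IsTiling (KT T) G P → 3 * D ≤ ((covered P)ᶜ).ncard := by
  obtain ⟨D, hD⟩ : ∃ D, b ^ (T - 1) / 64 = D := ⟨_, rfl⟩
  have hb1 : 1 ≤ b := by omega
  have hbT : b ≤ b ^ (T - 1) := by
    calc b = b ^ 1 := (pow_one b).symm
      _ ≤ b ^ (T - 1) := Nat.pow_le_pow_right hb1 (by omega)
  have hD1 : 1 ≤ D := by
    rw [← hD]
    exact (Nat.le_div_iff_mul_le (by norm_num)).2 (by omega)
  have hm : b ^ (T + 1) = b ^ 2 * b ^ (T - 1) := by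
    rw [← pow_add]
    congr 1
    omega
  have hm2 : 2 ≤ b ^ (T + 1) := by
    calc 2 ≤ b := by omega
      _ = b ^ 1 := (pow_one b).symm
      _ ≤ b ^ (T + 1) := Nat.pow_le_pow_right hb1 (by omega)
  obtain ⟨F, hF, he⟩ := hrand T (8 * b ^ 2) (b ^ (T + 1)) hT (by nlinarith) hm2 (by
    rw [mul_pow, ← pow_mul, ← pow_mul, mul_comm (T + 1) 2]
    apply Nat.mul_le_mul_right
    calc 8 = 8 ^ 1 := (pow_one 8).symm
      _ ≤ 8 ^ (T + 1) := Nat.pow_le_pow_right (by norm_num) (by omega))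
  have hDe : D * b ^ (T + 1) ≤ F.edgeSet.ncard := by
    have h1 : 64 * D ≤ b ^ (T - 1) := by
      rw [← hD, mul_comm]
      exact Nat.div_mul_le_self _ _
    have h2 : (b ^ 2 * 64) * (D * b ^ (T + 1)) ≤ (b ^ 2 * 64) * F.edgeSet.ncard := by
      calc (b ^ 2 * 64) * (D * b ^ (T + 1)) = (b ^ 2 * (64 * D)) * b ^ (T + 1) := by ring
        _ ≤ (b ^ 2 * b ^ (T - 1)) * b ^ (T + 1) :=
          Nat.mul_le_mul_right _ (Nat.mul_le_mul_left _ h1)
        _ = (b ^ (T + 1)) ^ 2 := by rw [← hm, sq]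
        _ ≤ 8 * (8 * b ^ 2) * F.edgeSet.ncard := he
        _ = (b ^ 2 * 64) * F.edgeSet.ncard := by ring
    exact Nat.le_of_mul_le_mul_left h2 (by positivity)
  obtain ⟨m, F', f, hm1, hmm, hf, hadj, hdeg⟩ := hmin (b ^ (T + 1)) D F (by omega) hD1 hDe
  have hF' : KFree T F' := by
    intro x y hx hy h
    exact hF (fun i => f (x i)) (fun j => f (y j)) (hf.comp hx) (hf.comp hy)
      (fun i j => hadj _ _ (h i j))
  have hDm : D ≤ m := by
    have h1 := hdeg ⟨0, hm1⟩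
    have h2 := Set.ncard_le_ncard (Set.subset_univ (F'.neighborSet ⟨0, hm1⟩)) (Set.toFinite _)
    rw [Set.ncard_univ, Nat.card_eq_fintype_card, Fintype.card_fin] at h2
    omega
  obtain ⟨a, ha⟩ : ∃ a : ℕ, a + 2 * D = 2 * m := ⟨2 * m - 2 * D, by omega⟩
  obtain ⟨F2, hF2, hdeg2⟩ := transport (M := a + 2 * D) (T := T) (D := D)
    (by rw [Fintype.card_prod, Fintype.card_bool, Fintype.card_fin, ha]) (twice F')
    (twice_kfree (by omega) hF') (twice_deg hdeg)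
  refine ⟨3 * a + 3 * D, D, big a D F2, hD, by omega, by omega, ?_, ?_⟩
  · intro v
    have := big_deg hdeg2 v
    omega
  · intro P hP
    exact hgap T a D F2 (by omega) hF2 P hP

theorem power (hgap : S_gap) (hrand : S_rand) (hmin : S_min) (T : ℕ) (hT : 2 ≤ T) (N : ℕ) :
    ∃ (n : ℕ) (_ : N ≤ n) (G : SimpleGraph (Fin n)),
      (∀ v, 2 * n ≤ 3 * (G.neighborSet v).ncard) ∧
      ∀ P : Set (Fin (3 * T) → Fin n), IsTiling (KT T) G P →
        (1 / 256 : ℝ) * (n : ℝ) ^ (1 - 2 / ((T : ℝ) + 1)) ≤ (((covered P)ᶜ).ncard : ℝ) := by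
  set b : ℕ := 64 * (N + 1) with hb
  obtain ⟨n, D, G, hD, hDn, hn, hdeg, hP⟩ := construct hgap hrand hmin T b hT (by omega)
  have hb1 : 1 ≤ b := by omega
  have hbT : b ≤ b ^ (T - 1) := by
    calc b = b ^ 1 := (pow_one b).symm
      _ ≤ b ^ (T - 1) := Nat.pow_le_pow_right hb1 (by omega)
  have hDN : N + 1 ≤ D := by
    rw [← hD]
    exact (Nat.le_div_iff_mul_le (by norm_num)).2 (by omega)
  refine ⟨n, by omega, G, hdeg, ?_⟩
  intro P hPt
  have h1 := hP P hPt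
  have hTpos : (0 : ℝ) < (T : ℝ) + 1 := by positivity
  have hT2 : (2 : ℝ) ≤ T := by exact_mod_cast hT
  set al : ℝ := 1 - 2 / ((T : ℝ) + 1) with hal
  have hal0 : 0 ≤ al := by
    rw [hal, sub_nonneg, div_le_one hTpos]
    linarith
  have hal1 : al ≤ 1 := by
    rw [hal]
    have : 0 ≤ 2 / ((T : ℝ) + 1) := by positivity
    linarith
  have hbR : (1 : ℝ) ≤ b := by exact_mod_cast hb1
  have hexp : ((T : ℝ) + 1) * al = (T : ℝ) - 1 := by
    rw [hal]
    field_simp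
    ring
  have h2 : (n : ℝ) ^ al ≤ 6 * (b : ℝ) ^ (T - 1) := by
    have h3 : (n : ℝ) ≤ 6 * (b : ℝ) ^ (T + 1) := by exact_mod_cast hn
    calc (n : ℝ) ^ al ≤ (6 * (b : ℝ) ^ (T + 1)) ^ al :=
          Real.rpow_le_rpow (Nat.cast_nonneg _) h3 hal0
      _ = 6 ^ al * ((b : ℝ) ^ (T + 1)) ^ al :=
          Real.mul_rpow (by norm_num) (by positivity)
      _ ≤ 6 * (b : ℝ) ^ (T - 1) := by
          have h4 : (6 : ℝ) ^ al ≤ 6 := by
            calc (6 : ℝ) ^ al ≤ 6 ^ (1 : ℝ) := Real.rpow_le_rpow_of_exponent_le (by norm_num) hal1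
              _ = 6 := Real.rpow_one 6
          have h5 : ((b : ℝ) ^ (T + 1)) ^ al = (b : ℝ) ^ (T - 1) := by
            rw [← Real.rpow_natCast, ← Real.rpow_mul (by positivity), ← Real.rpow_natCast]
            congr 1
            push_cast
            rw [hexp, Nat.cast_sub (by omega)]
            simp
          rw [h5]
          exact mul_le_mul_of_nonneg_right h4 (by positivity)
  have h6 : (b : ℝ) ^ (T - 1) ≤ 128 * D := by
    have h7 : b ^ (T - 1) ≤ 128 * D := by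
      have h8 := Nat.lt_div_mul_add (a := b ^ (T - 1)) (b := 64) (by norm_num)
      rw [hD] at h8
      omega
    exact_mod_cast h7
  have h9 : (3 * (D : ℝ)) ≤ (((covered P)ᶜ).ncard : ℝ) := by exact_mod_cast h1
  calc (1 / 256 : ℝ) * (n : ℝ) ^ al ≤ (1 / 256 : ℝ) * (6 * (b : ℝ) ^ (T - 1)) :=
        mul_le_mul_of_nonneg_left h2 (by norm_num)
    _ ≤ (1 / 256 : ℝ) * (6 * (128 * D)) := by
        apply mul_le_mul_of_nonneg_left _ (by norm_num)
        exact mul_le_mul_of_nonneg_left h6 (by norm_num)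
    _ = 3 * D := by ring
    _ ≤ _ := h9

theorem nearly (hgap : S_gap) (hrand : S_rand) (hmin : S_min) (ε : ℝ) (hε : 0 < ε) :
    ∃ T : ℕ, 2 ≤ T ∧ ∀ N : ℕ, ∃ (n : ℕ) (_ : N ≤ n) (G : SimpleGraph (Fin n)),
      (∀ v, 2 * n ≤ 3 * (G.neighborSet v).ncard) ∧
      ∀ P : Set (Fin (3 * T) → Fin n), IsTiling (KT T) G P →
        (n : ℝ) ^ (1 - ε) ≤ (((covered P)ᶜ).ncard : ℝ) := by
  obtain ⟨T0, hT0⟩ := exists_nat_gt (4 / ε)
  set T := T0 + 2 with hT
  have hTR : (T : ℝ) = (T0 : ℝ) + 2 := by rw [hT]; push_cast; ring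
  have hT1 : 2 / ((T : ℝ) + 1) ≤ ε / 2 := by
    rw [div_le_div_iff₀ (by positivity) (by norm_num)]
    have h1 : 4 < ε * T0 := by
      rw [div_lt_iff₀ hε] at hT0
      linarith
    rw [hTR]
    nlinarith
  refine ⟨T, by omega, fun N => ?_⟩
  have htend : Tendsto (fun n : ℕ => (n : ℝ) ^ (ε / 2)) atTop atTop :=
    (tendsto_rpow_atTop (by positivity)).comp tendsto_natCast_atTop_atTop
  obtain ⟨N0, hN0⟩ := Filter.eventually_atTop.1 (htend.eventually_ge_atTop 256)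
  obtain ⟨n, hn, G, hdeg, hP⟩ := power hgap hrand hmin T (by omega) (max N (max N0 1))
  refine ⟨n, (le_max_left _ _).trans hn, G, hdeg, fun P hPt => ?_⟩
  have hnN0 : N0 ≤ n := (le_max_left _ _).trans ((le_max_right _ _).trans hn)
  have hn1 : 1 ≤ n := (le_max_right _ _).trans ((le_max_right _ _).trans hn)
  have hn1R : (1 : ℝ) ≤ n := by exact_mod_cast hn1
  have hnpos : (0 : ℝ) < n := by linarith
  have h1 := hN0 n hnN0
  refine le_trans ?_ (hP P hPt)
  have h2 : (n : ℝ) ^ (1 - ε) * (n : ℝ) ^ (ε / 2) ≤ (n : ℝ) ^ (1 - 2 / ((T : ℝ) + 1)) := by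
    rw [← Real.rpow_add hnpos]
    apply Real.rpow_le_rpow_of_exponent_le hn1R
    linarith
  have h3 : (n : ℝ) ^ (1 - ε) * 256 ≤ (n : ℝ) ^ (1 - ε) * (n : ℝ) ^ (ε / 2) :=
    mul_le_mul_of_nonneg_left h1 (Real.rpow_nonneg hnpos.le _)
  linarith

end Pool.Agent.Y996.OT
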