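import Pool.Agent.H730R4.Gap
import Pool.Agent.H730R4.Chi

/-!
Statements for the project OT (ordered tilings, MP_ced62d_co): for the ordered complete tripartite
graph with parts of size `T` the leftover is at least `n ^ (1 - 2 / (T + 1) - o(1))`.
-/

set_option autoImplicit false

namespace Pool.Agent.Y996.OT

open Pool.Agent.H730R4

/-- The ordered complete tripartite graph on `3 T` vertices whose parts are the three intervals of
`T` consecutive vertices. -/
def KT (T : ℕ) : SimpleGraph (Fin (3 * T)) where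
  Adj a b := (a : ℕ) / T ≠ (b : ℕ) / T
  symm := ⟨fun _ _ h => Ne.symm h⟩
  loopless := ⟨fun _ h => h rfl⟩

/-- `F` contains no complete bipartite graph with two classes of `T` vertices. -/
def KFree (T : ℕ) {V : Type} (F : SimpleGraph V) : Prop :=
  ∀ x y : Fin T → V, Function.Injective x → Function.Injective y → ¬ ∀ i j, F.Adj (x i) (y j)

/-- The parameter of `KT T` is three. -/
def S_chi : Prop := ∀ T : ℕ, 1 ≤ T → chiStarCr (KT T) = 3

/-- A tiling of `big a s F` with `F` free of `K_{T,T}` misses at least `3 s` vertices. -/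
def S_gap : Prop := ∀ (T a s : ℕ) (F : SimpleGraph (Fin (a + 2 * s))), 1 ≤ T → KFree T F →
  ∀ P : Set (Fin (3 * T) → Fin (3 * a + 3 * s)), IsTiling (KT T) (big a s F) P →
    3 * s ≤ ((covered P)ᶜ).ncard

/-- Random graphs: a dense graph without `K_{T,T}`. -/
def S_rand : Prop := ∀ T q m : ℕ, 2 ≤ T → 1 ≤ q → 2 ≤ m → 8 * m ^ 2 ≤ q ^ (T + 1) →
  ∃ F : SimpleGraph (Fin m), KFree T F ∧ m ^ 2 ≤ 8 * q * F.edgeSet.ncard

/-- Subgraphs of large minimum degree. -/
def S_min : Prop := ∀ (m D : ℕ) (F : SimpleGraph (Fin m)), 1 ≤ m → 1 ≤ D →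
  D * m ≤ F.edgeSet.ncard →
    ∃ (m' : ℕ) (F' : SimpleGraph (Fin m')) (f : Fin m' → Fin m), 1 ≤ m' ∧ m' ≤ m ∧
      Function.Injective f ∧ (∀ u v, F'.Adj u v → F.Adj (f u) (f v)) ∧
      ∀ v, D ≤ (F'.neighborSet v).ncard

end Pool.Agent.Y996.OT
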